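import Pool.Agent.N798.T.Stm

/-!
Project T (helper798), step FT: Fourier transform of a twisted weight over a window.  By helper216.
-/

set_option autoImplicit false

namespace Pool.Agent.N216.T.FT

open Finset MeasureTheory Filter Topology
open Pool.Agent.H376R2.MR (er)
open Pool.Agent.N798.T

/-! ### The exponentials -/

lemma norm_er (τ x : ℝ) : ‖er τ x‖ = 1 := Complex.norm_exp_ofReal_mul_I _

lemma er_add (τ x y : ℝ) : er τ (x + y) = er τ x * er τ y := by
  unfold er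
  rw [← Complex.exp_add]
  congr 1
  push_cast
  ring

lemma er_mul (τ τ' x : ℝ) : er τ x * er τ' x = er (τ + τ') x := by
  unfold er
  rw [← Complex.exp_add]
  congr 1
  push_cast
  ring

lemma cont_er (τ : ℝ) : Continuous (er τ) := by
  unfold er
  fun_prop

/-! ### Summation by parts -/

lemma abel_id (f κ : ℕ → ℂ) (N n : ℕ) (h : N ≤ n) :
    ∑ m ∈ Ioc N n, f m * κ m + ∑ m ∈ Ico N n, (∑ i ∈ Ioc N m, f i) * (κ (m + 1) - κ m) =
      (∑ i ∈ Ioc N n, f i) * κ n := by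
  induction n, h using Nat.le_induction with
  | base => simp
  | succ n hn ih =>
    have h1 : ∀ g : ℕ → ℂ, ∑ m ∈ Ioc N (n + 1), g m = ∑ m ∈ Ioc N n, g m + g (n + 1) := fun g =>
      Finset.sum_Ioc_succ_top (by omega) g
    rw [h1, h1, Finset.sum_Ico_succ_top hn]
    linear_combination ih

lemma abel (f κ : ℕ → ℂ) (N N' : ℕ) (hN : N ≤ N') (B k0 k1 : ℝ) (hk1 : 0 ≤ k1)
    (hS : ∀ n, N ≤ n → n ≤ N' → ‖∑ m ∈ Ioc N n, f m‖ ≤ B)
    (h0 : N < N' → ‖κ N'‖ ≤ k0) (h1 : ∀ m, N < m → m < N' → ‖κ (m + 1) - κ m‖ ≤ k1) (hk0 : 0 ≤ k0) :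
    ‖∑ m ∈ Ioc N N', f m * κ m‖ ≤ B * (k0 + (N' - N) * k1) := by
  have hB : 0 ≤ B := (norm_nonneg _).trans (hS N le_rfl hN)
  have hNr : (N : ℝ) ≤ N' := by exact_mod_cast hN
  rcases hN.eq_or_lt with h | h
  · subst h
    simp only [Finset.Ioc_self, Finset.sum_empty, norm_zero, sub_self, zero_mul, add_zero]
    positivity
  have hid := abel_id f κ N N' hN
  have e1 : ∑ m ∈ Ioc N N', f m * κ m = (∑ i ∈ Ioc N N', f i) * κ N' -
      ∑ m ∈ Ico N N', (∑ i ∈ Ioc N m, f i) * (κ (m + 1) - κ m) := by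
    linear_combination hid
  rw [e1]
  have h2 : ‖(∑ i ∈ Ioc N N', f i) * κ N'‖ ≤ B * k0 := by
    rw [norm_mul]
    exact mul_le_mul (hS N' hN le_rfl) (h0 h) (norm_nonneg _) hB
  have h3 : ‖∑ m ∈ Ico N N', (∑ i ∈ Ioc N m, f i) * (κ (m + 1) - κ m)‖ ≤
      ∑ m ∈ Ico N N', B * k1 := by
    refine norm_sum_le_of_le _ fun m hm => ?_
    rw [Finset.mem_Ico] at hm
    rcases hm.1.eq_or_lt with h4 | h4
    · rw [← h4]
      simp only [Finset.Ioc_self, Finset.sum_empty, zero_mul, norm_zero]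
      positivity
    · rw [norm_mul]
      exact mul_le_mul (hS m hm.1 hm.2.le) (h1 m h4 hm.2) (norm_nonneg _) hB
  rw [Finset.sum_const, Nat.card_Ico, nsmul_eq_mul, Nat.cast_sub hN] at h3
  calc ‖(∑ i ∈ Ioc N N', f i) * κ N' -
        ∑ m ∈ Ico N N', (∑ i ∈ Ioc N m, f i) * (κ (m + 1) - κ m)‖ ≤ B * k0 +
          ((N' : ℝ) - N) * (B * k1) := (norm_sub_le _ _).trans (add_le_add h2 h3)
    _ = _ := by ring

/-! ### The cells -/

lemma g_le {s t : ℝ} (hs : 0 < s) (ht : 0 < t) :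
    (Real.log (s + 1) - Real.log s) - (Real.log (t + 1) - Real.log t) ≤ |s - t| / (s * t) := by
  have h1 : (Real.log (s + 1) - Real.log s) - (Real.log (t + 1) - Real.log t) =
      Real.log (((s + 1) * t) / (s * (t + 1))) := by
    rw [Real.log_div (by positivity) (by positivity), Real.log_mul (by positivity) (by positivity),
      Real.log_mul (by positivity) (by positivity)]
    ring
  rw [h1]
  have h2 := Real.log_le_sub_one_of_pos (show 0 < ((s + 1) * t) / (s * (t + 1)) by positivity)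
  have h3 : ((s + 1) * t) / (s * (t + 1)) - 1 = (t - s) / (s * (t + 1)) := by
    field_simp
    ring
  rw [h3] at h2
  refine h2.trans ?_
  calc (t - s) / (s * (t + 1)) ≤ |s - t| / (s * (t + 1)) := by
        gcongr
        rw [abs_sub_comm]
        exact le_abs_self _
    _ ≤ |s - t| / (s * t) := by
        gcongr
        linarith

lemma g_abs {s t : ℝ} (hs : 0 < s) (ht : 0 < t) :
    |(Real.log (s + 1) - Real.log s) - (Real.log (t + 1) - Real.log t)| ≤ |s - t| / (s * t) := by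
  rw [abs_le]
  constructor
  · have := g_le ht hs
    rw [abs_sub_comm, mul_comm t s] at this
    linarith
  · exact g_le hs ht

/-- the integral over a cell -/
noncomputable def kap (b : ℤ) (η : ℝ) (m : ℕ) : ℂ :=
  ∫ v in (Real.log ((m : ℝ) - b) - Real.log m)..(Real.log ((m : ℝ) + 1 - b) - Real.log m), er (-η) v

lemma int_le (η u v : ℝ) : ‖∫ x in u..v, er (-η) x‖ ≤ |v - u| := by
  have h := intervalIntegral.norm_integral_le_of_norm_le_const (a := u) (b := v) (C := 1)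
    (f := er (-η)) fun x _ => (norm_er _ _).le
  rwa [one_mul] at h

lemma kap_le (b : ℤ) (η : ℝ) (m : ℕ) (hm : 0 < m) (hb : (m : ℝ) / 2 ≤ m - b) :
    ‖kap b η m‖ ≤ 2 / m := by
  have hm' : (0 : ℝ) < m := by exact_mod_cast hm
  have h0 : (0 : ℝ) < m - b := by linarith
  refine (int_le _ _ _).trans ?_
  have h1 : Real.log ((m : ℝ) + 1 - b) - Real.log m - (Real.log ((m : ℝ) - b) - Real.log m) =
      Real.log (((m : ℝ) + 1 - b) / (m - b)) := by
    rw [Real.log_div (by linarith) (by linarith)]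
    ring
  rw [h1]
  have h2 : (1 : ℝ) ≤ ((m : ℝ) + 1 - b) / (m - b) := by
    rw [le_div_iff₀ h0]
    linarith
  rw [abs_of_nonneg (Real.log_nonneg h2)]
  refine (Real.log_le_sub_one_of_pos (by linarith)).trans ?_
  have h3 : ((m : ℝ) + 1 - b) / (m - b) - 1 = 1 / (m - b) := by
    field_simp
    ring
  rw [h3, div_le_div_iff₀ h0 hm']
  linarith

lemma kap_diff (b : ℤ) (η : ℝ) (m : ℕ) (hm : 0 < m) (hb : (m : ℝ) / 2 ≤ m - b) :
    ‖kap b η (m + 1) - kap b η m‖ ≤ (4 * |(b : ℝ)| + 2) / (m : ℝ) ^ 2 := by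
  have hm' : (0 : ℝ) < m := by exact_mod_cast hm
  have h0 : (0 : ℝ) < m - b := by linarith
  have hi : ∀ u v : ℝ, IntervalIntegrable (er (-η)) volume u v := fun u v =>
    (cont_er _).intervalIntegrable _ _
  unfold kap
  rw [intervalIntegral.integral_interval_sub_interval_comm' (hi _ _) (hi _ _) (hi _ _)]
  refine (norm_sub_le _ _).trans ?_
  have h1 := int_le η (Real.log ((m : ℝ) + 1 - b) - Real.log m)
    (Real.log (((m + 1 : ℕ) : ℝ) + 1 - b) - Real.log ((m + 1 : ℕ) : ℝ))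
  have h2 := int_le η (Real.log ((m : ℝ) - b) - Real.log m)
    (Real.log (((m + 1 : ℕ) : ℝ) - b) - Real.log ((m + 1 : ℕ) : ℝ))
  have h3 := g_abs (s := (m : ℝ) + 1 - b) (t := m) (by linarith) hm'
  have h4 := g_abs (s := (m : ℝ) - b) (t := m) h0 hm'
  have e1 : Real.log (((m + 1 : ℕ) : ℝ) + 1 - b) - Real.log ((m + 1 : ℕ) : ℝ) -
      (Real.log ((m : ℝ) + 1 - b) - Real.log m) =
      (Real.log ((m : ℝ) + 1 - b + 1) - Real.log ((m : ℝ) + 1 - b)) -
        (Real.log ((m : ℝ) + 1) - Real.log m) := by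
    push_cast
    have : (m : ℝ) + 1 + 1 - b = (m : ℝ) + 1 - b + 1 := by ring
    rw [this]
    ring
  have e2 : Real.log (((m + 1 : ℕ) : ℝ) - b) - Real.log ((m + 1 : ℕ) : ℝ) -
      (Real.log ((m : ℝ) - b) - Real.log m) =
      (Real.log ((m : ℝ) - b + 1) - Real.log ((m : ℝ) - b)) -
        (Real.log ((m : ℝ) + 1) - Real.log m) := by
    push_cast
    have : (m : ℝ) + 1 - b = (m : ℝ) - b + 1 := by ring
    rw [this]
    ring
  rw [e1] at h1
  rw [e2] at h2
  have h5 : |(m : ℝ) + 1 - b - m| / (((m : ℝ) + 1 - b) * m) ≤ (2 * |(b : ℝ)| + 2) / (m : ℝ) ^ 2 := by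
    have h6 : |(m : ℝ) + 1 - b - m| ≤ |(b : ℝ)| + 1 := by
      have : (m : ℝ) + 1 - b - m = 1 - b := by ring
      rw [this]
      calc |1 - (b : ℝ)| ≤ |(1 : ℝ)| + |(b : ℝ)| := abs_sub _ _
        _ = |(b : ℝ)| + 1 := by rw [abs_one]; ring
    have h7 : (m : ℝ) / 2 * m ≤ ((m : ℝ) + 1 - b) * m :=
      mul_le_mul_of_nonneg_right (by linarith) hm'.le
    calc |(m : ℝ) + 1 - b - m| / (((m : ℝ) + 1 - b) * m) ≤ (|(b : ℝ)| + 1) / ((m : ℝ) / 2 * m) :=
          div_le_div₀ (by positivity) h6 (by positivity) h7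
      _ = _ := by
          field_simp
          try ring
  have h8 : |(m : ℝ) - b - m| / (((m : ℝ) - b) * m) ≤ (2 * |(b : ℝ)|) / (m : ℝ) ^ 2 := by
    have h6 : |(m : ℝ) - b - m| ≤ |(b : ℝ)| := by
      have : (m : ℝ) - b - m = -b := by ring
      rw [this, abs_neg]
    have h7 : (m : ℝ) / 2 * m ≤ ((m : ℝ) - b) * m :=
      mul_le_mul_of_nonneg_right hb hm'.le
    calc |(m : ℝ) - b - m| / (((m : ℝ) - b) * m) ≤ |(b : ℝ)| / ((m : ℝ) / 2 * m) :=
          div_le_div₀ (by positivity) h6 (by positivity) h7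
      _ = _ := by
          field_simp
          try ring
  have h9 : (4 * |(b : ℝ)| + 2) / (m : ℝ) ^ 2 = (2 * |(b : ℝ)| + 2) / (m : ℝ) ^ 2 +
      (2 * |(b : ℝ)|) / (m : ℝ) ^ 2 := by
    rw [← add_div]
    ring_nf
  rw [h9]
  exact add_le_add (h1.trans (h3.trans h5)) (h2.trans (h4.trans h8))

/-- one dyadic block -/
lemma block (f : ℕ → ℂ) (b : ℤ) (η B : ℝ) (N N' : ℕ) (hN1 : 1 ≤ N) (hN : N ≤ N')
    (hN2 : N' ≤ 2 * N) (hb : ∀ m, N < m → (m : ℝ) / 2 ≤ m - b)
    (hS : ∀ n, N ≤ n → n ≤ N' → ‖∑ m ∈ Ioc N n, f m‖ ≤ B * N) :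
    ‖∑ m ∈ Ioc N N', f m * kap b η m‖ ≤ B * (4 * |(b : ℝ)| + 4) := by
  have hNr : (0 : ℝ) < N := by exact_mod_cast hN1
  have hN'r : (N' : ℝ) ≤ 2 * N := by exact_mod_cast hN2
  have hB : 0 ≤ B * N := (norm_nonneg _).trans (hS N le_rfl hN)
  have h1 := abel f (kap b η) N N' hN (B * N) (2 / N) ((4 * |(b : ℝ)| + 2) / (N : ℝ) ^ 2)
    (by positivity) hS (fun h => by
      refine (kap_le b η N' (by omega) (hb N' h)).trans ?_
      have : (N : ℝ) ≤ N' := by exact_mod_cast hN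
      gcongr) (fun m hm hm' => by
      refine (kap_diff b η m (by omega) (hb m hm)).trans ?_
      have : (N : ℝ) ≤ m := by exact_mod_cast hm.le
      gcongr) (by positivity)
  refine h1.trans ?_
  have h2 : 2 / (N : ℝ) + (N' - N) * ((4 * |(b : ℝ)| + 2) / (N : ℝ) ^ 2) ≤
      (4 * |(b : ℝ)| + 4) / N := by
    have h3 : ((N' : ℝ) - N) * ((4 * |(b : ℝ)| + 2) / (N : ℝ) ^ 2) ≤
        N * ((4 * |(b : ℝ)| + 2) / (N : ℝ) ^ 2) := by
      apply mul_le_mul_of_nonneg_right (by linarith) (by positivity)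
    have h4 : (N : ℝ) * ((4 * |(b : ℝ)| + 2) / (N : ℝ) ^ 2) = (4 * |(b : ℝ)| + 2) / N := by
      field_simp
    have h5 : (4 * |(b : ℝ)| + 4) / N = 2 / (N : ℝ) + (4 * |(b : ℝ)| + 2) / N := by
      rw [← add_div]
      ring_nf
    rw [h5, ← h4]
    linarith
  calc B * N * (2 / (N : ℝ) + (N' - N) * ((4 * |(b : ℝ)| + 2) / (N : ℝ) ^ 2)) ≤
        B * N * ((4 * |(b : ℝ)| + 4) / N) := mul_le_mul_of_nonneg_left h2 hB
    _ = _ := by
        field_simp

/-- several dyadic blocks -/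
lemma blocks (f : ℕ → ℂ) (b : ℤ) (η B : ℝ) (N0 Nm : ℕ) (hN0 : 1 ≤ N0)
    (hb : ∀ m, N0 < m → (m : ℝ) / 2 ≤ m - b)
    (hS : ∀ N n, N0 ≤ N → N ≤ n → n ≤ 2 * N → n ≤ Nm → ‖∑ m ∈ Ioc N n, f m‖ ≤ B * N) (T : ℕ) :
    ∀ N N', N0 ≤ N → N ≤ N' → N' ≤ 2 ^ T * N → N' ≤ Nm →
      ‖∑ m ∈ Ioc N N', f m * kap b η m‖ ≤ T * (B * (4 * |(b : ℝ)| + 4)) := by
  induction T with
  | zero =>
    intro N N' _ h1 h2 _
    have : N' = N := by
      rw [pow_zero, one_mul] at h2
      omega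
    rw [this]
    simp
  | succ T ih =>
    intro N N' h0 h1 h2 h3
    have h4 : Ioc N N' = Ioc N (min (2 * N) N') ∪ Ioc (min (2 * N) N') N' := by
      rw [Finset.Ioc_union_Ioc_eq_Ioc (by omega) (by omega)]
    have h5 : Disjoint (Ioc N (min (2 * N) N')) (Ioc (min (2 * N) N') N') := by
      rw [Finset.disjoint_left]
      intro x hx hx'
      rw [Finset.mem_Ioc] at hx hx'
      omega
    rw [h4, Finset.sum_union h5]
    refine (norm_add_le _ _).trans ?_
    have h6 := block f b η B N (min (2 * N) N') (by omega) (by omega) (by omega)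
      (fun m hm => hb m (by omega)) (fun n hn hn' => hS N n h0 hn (by omega) (by omega))
    have h7 := ih (min (2 * N) N') N' (by omega) (by omega) (by
      rcases le_total (2 * N) N' with h | h
      · rw [min_eq_left h]
        calc N' ≤ 2 ^ (T + 1) * N := h2
          _ = 2 ^ T * (2 * N) := by rw [pow_succ]; ring
      · rw [min_eq_right h]
        exact Nat.le_mul_of_pos_left _ (by positivity)) h3
    push_cast
    linarith

/-! ### The integrand -/

/-- the integrand -/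
noncomputable def F (a : ℕ → ℂ) (b : ℤ) (τ η : ℝ) (y : ℝ) : ℂ :=
  a (vl b (Real.exp y)) * er τ (Real.log (vl b (Real.exp y))) * er (-η) y

lemma F_le {a : ℕ → ℂ} (ha : ∀ n, ‖a n‖ ≤ 1) (b : ℤ) (τ η y : ℝ) : ‖F a b τ η y‖ ≤ 1 := by
  unfold F
  rw [norm_mul, norm_mul, norm_er, norm_er, mul_one, mul_one]
  exact ha _

lemma F_meas (a : ℕ → ℂ) (b : ℤ) (τ η : ℝ) : Measurable (F a b τ η) := by
  have h1 : Measurable fun y : ℝ => vl b (Real.exp y) := by
    have h2 : Measurable fun x : ℝ => vl b x := by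
      unfold vl
      exact (Measurable.of_discrete (f := fun z : ℤ => (z + b).toNat)).comp Int.measurable_floor
    exact h2.comp Real.measurable_exp
  have h3 : Measurable fun y : ℝ => a (vl b (Real.exp y)) * er τ (Real.log (vl b (Real.exp y))) :=
    (Measurable.of_discrete (f := fun n : ℕ => a n * er τ (Real.log n))).comp h1
  exact h3.mul (cont_er _).measurable

lemma F_int {a : ℕ → ℂ} (ha : ∀ n, ‖a n‖ ≤ 1) (b : ℤ) (τ η u v : ℝ) :
    IntervalIntegrable (F a b τ η) volume u v := by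
  have h : IntervalIntegrable (fun _ : ℝ => (1 : ℝ)) volume u v := intervalIntegrable_const
  exact h.mono_fun' (F_meas a b τ η).aestronglyMeasurable
    (Filter.Eventually.of_forall fun y => F_le ha b τ η y)

lemma F_triv {a : ℕ → ℂ} (ha : ∀ n, ‖a n‖ ≤ 1) (b : ℤ) (τ η u v : ℝ) :
    ‖∫ y in u..v, F a b τ η y‖ ≤ |v - u| := by
  have h := intervalIntegral.norm_integral_le_of_norm_le_const (a := u) (b := v) (C := 1)
    (f := F a b τ η) fun x _ => F_le ha b τ η x
  rwa [one_mul] at h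

lemma cell (a : ℕ → ℂ) (b : ℤ) (τ η : ℝ) (m : ℕ) (hmb : (1 : ℤ) ≤ m - b) :
    ∫ y in Real.log ((m : ℝ) - b)..Real.log ((m : ℝ) + 1 - b), F a b τ η y =
      a m * er (τ - η) (Real.log m) * kap b η m := by
  have hmb' : (1 : ℝ) ≤ (m : ℝ) - b := by exact_mod_cast hmb
  have h1 : Real.log ((m : ℝ) - b) ≤ Real.log ((m : ℝ) + 1 - b) :=
    Real.log_le_log (by linarith) (by linarith)
  rw [intervalIntegral.integral_congr_Ioo_of_le (g := fun y =>
    (a m * er τ (Real.log m)) * er (-η) y) h1]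
  · rw [intervalIntegral.integral_const_mul]
    have h2 := intervalIntegral.integral_comp_add_right
      (a := Real.log ((m : ℝ) - b) - Real.log m) (b := Real.log ((m : ℝ) + 1 - b) - Real.log m)
      (er (-η)) (Real.log m)
    rw [sub_add_cancel, sub_add_cancel] at h2
    rw [← h2]
    simp only [er_add]
    rw [intervalIntegral.integral_mul_const]
    have h3 : er (τ - η) (Real.log m) = er τ (Real.log m) * er (-η) (Real.log m) := by
      rw [er_mul, sub_eq_add_neg]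
    rw [h3]
    unfold kap
    ring
  · intro y hy
    have h2 : (m : ℝ) - b < Real.exp y := by
      rw [← Real.log_lt_iff_lt_exp (by linarith)]
      exact hy.1
    have h3 : Real.exp y < (m : ℝ) + 1 - b := by
      rw [← Real.lt_log_iff_exp_lt (by linarith)]
      exact hy.2
    have h4 : ⌊Real.exp y⌋ = m - b := by
      rw [Int.floor_eq_iff]
      push_cast
      exact ⟨h2.le, by linarith⟩
    have h5 : vl b (Real.exp y) = m := by
      unfold vl
      rw [h4]
      simp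
    change F a b τ η y = a m * er τ (Real.log m) * er (-η) y
    unfold F
    rw [h5]

lemma cells {a : ℕ → ℂ} (ha : ∀ n, ‖a n‖ ≤ 1) (b : ℤ) (τ η : ℝ) (N : ℕ) (hN : (0 : ℤ) ≤ N - b)
    (n : ℕ) (hn : N ≤ n) :
    ∫ y in Real.log ((N : ℝ) + 1 - b)..Real.log ((n : ℝ) + 1 - b), F a b τ η y =
      ∑ m ∈ Ioc N n, a m * er (τ - η) (Real.log m) * kap b η m := by
  induction n, hn using Nat.le_induction with
  | base => simp
  | succ n hn ih =>
    rw [Finset.sum_Ioc_succ_top (by omega), ← ih]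
    have h1 := cell a b τ η (n + 1) (by push_cast; omega)
    rw [← h1]
    have h2 : (((n + 1 : ℕ) : ℝ) - b) = (n : ℝ) + 1 - b := by push_cast; ring
    rw [h2]
    exact (intervalIntegral.integral_add_adjacent_intervals (F_int ha _ _ _ _ _)
      (F_int ha _ _ _ _ _)).symm

/-! ### The theorem -/

lemma exp_le_fact (K : ℕ) {Y : ℝ} (hY : 1 ≤ Y) : Real.exp (-Y) ≤ (K.factorial : ℝ) / Y ^ K := by
  have h1 := Real.pow_div_factorial_le_exp Y (by linarith) K
  have h2 : (0 : ℝ) < K.factorial := by exact_mod_cast K.factorial_pos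
  have h3 : 0 < Y ^ K := by positivity
  rw [Real.exp_neg, inv_eq_one_div, div_le_div_iff₀ (Real.exp_pos _) h3]
  rw [div_le_iff₀ h2] at h1
  linarith

/-- the part of large `Y` -/
lemma large {a : ℕ → ℂ} (ha : ∀ n, ‖a n‖ ≤ 1) (b : ℤ) (A K K1 : ℕ) (R C1 : ℝ) (hR : 0 ≤ R)
    (T : ℕ) (hT : 2 * Real.exp R * (2 + |(b : ℝ)|) ≤ 2 ^ T)
    (htw : ∀ (N N' : ℕ) (τ : ℝ), 2 ≤ N → N ≤ N' → N' ≤ 2 * N →
      (Real.log N) ^ K1 ≤ |τ| → |τ| ≤ (N : ℝ) ^ (2 * A + 2) →
      ‖∑ n ∈ Ioc N N', a n * er τ (Real.log n)‖ ≤ C1 * N / (Real.log N) ^ K)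
    (Y y1 y2 τ η : ℝ) (hY4 : 4 * |(b : ℝ)| + 4 ≤ Y) (hYK : (R + |(b : ℝ)| + 2) ^ K1 ≤ Y)
    (h1 : Y ≤ y1) (h12 : y1 ≤ y2) (h2 : y2 ≤ Y + R)
    (hτ : |τ| ≤ Real.exp (A * Y)) (hη : |η| ≤ Real.exp (A * Y)) (hτη : Y ^ (K1 + 1) ≤ |τ - η|) :
    ‖∫ y in y1..y2, F a b τ η y‖ ≤ 3 * Real.exp (-Y) +
      T * (|C1| * 2 ^ K / Y ^ K * (4 * |(b : ℝ)| + 4)) := by
  set β := |(b : ℝ)| with hβ
  have hβ0 : 0 ≤ β := abs_nonneg _
  have hbβ : (b : ℝ) ≤ β := le_abs_self _
  have hbβ' : -β ≤ (b : ℝ) := neg_abs_le _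
  have hY1 : 4 ≤ Y := by linarith
  have hY0 : 0 < Y := by linarith
  have eh : Real.exp Y = Real.exp (Y / 2) * Real.exp (Y / 2) := by
    rw [← Real.exp_add]
    ring_nf
  have e1 : Y / 2 + 1 ≤ Real.exp (Y / 2) := Real.add_one_le_exp _
  have e2 : Y + 1 ≤ Real.exp Y := Real.add_one_le_exp _
  have e3 : Real.exp (Y / 2) + β + 1 ≤ Real.exp Y := by
    rw [eh]
    nlinarith
  have e4 : 2 * (β + 1) ≤ Real.exp Y := by linarith
  have ey1 : Real.exp Y ≤ Real.exp y1 := Real.exp_le_exp.2 h1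
  have ey12 : Real.exp y1 ≤ Real.exp y2 := Real.exp_le_exp.2 h12
  have ey2 : Real.exp y2 ≤ Real.exp (Y + R) := Real.exp_le_exp.2 h2
  -- the integers
  obtain ⟨J1, hJ1⟩ : ∃ J1, J1 = ⌈Real.exp y1⌉₊ := ⟨_, rfl⟩
  obtain ⟨J2, hJ2⟩ : ∃ J2, J2 = max J1 ⌊Real.exp y2⌋₊ := ⟨_, rfl⟩
  have hJ1a : Real.exp y1 ≤ J1 := by rw [hJ1]; exact Nat.le_ceil _
  have hJ1b : (J1 : ℝ) < Real.exp y1 + 1 := by rw [hJ1]; exact Nat.ceil_lt_add_one (Real.exp_pos _).le
  have hJ12 : J1 ≤ J2 := by rw [hJ2]; exact le_max_left _ _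
  have hJ12r : (J1 : ℝ) ≤ J2 := by exact_mod_cast hJ12
  have hJ2a : Real.exp y2 < J2 + 1 := by
    have h3 := Nat.lt_floor_add_one (Real.exp y2)
    have h4 : ((⌊Real.exp y2⌋₊ : ℕ) : ℝ) ≤ J2 := by
      rw [hJ2]
      exact_mod_cast le_max_right _ _
    linarith
  have hJ2b : (J2 : ℝ) ≤ Real.exp (Y + R) + 1 := by
    rw [hJ2]
    push_cast
    apply max_le
    · linarith
    · exact (Nat.floor_le (Real.exp_pos _).le).trans (by linarith)
  have hJpos : (0 : ℝ) < J1 := by linarith [Real.exp_pos y1]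
  have hJ2pos : (0 : ℝ) < J2 := by linarith
  -- the numbers `m`
  have hbZ : (b : ℤ) ≤ |b| := le_abs_self _
  have hJ1Z : (0 : ℤ) ≤ (J1 : ℤ) + b - 1 := by
    have h3 : (0 : ℝ) ≤ (J1 : ℝ) + b - 1 := by linarith [Real.exp_pos (Y / 2)]
    exact_mod_cast h3
  obtain ⟨N, hN⟩ := Int.eq_ofNat_of_zero_le hJ1Z
  have hJ2Z : (0 : ℤ) ≤ (J2 : ℤ) + b - 1 := by
    have h3 : (0 : ℝ) ≤ (J2 : ℝ) + b - 1 := by linarith [Real.exp_pos (Y / 2)]
    exact_mod_cast h3
  obtain ⟨N', hN'⟩ := Int.eq_ofNat_of_zero_le hJ2Z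
  have hNr : (N : ℝ) = J1 + b - 1 := by exact_mod_cast hN.symm
  have hN'r : (N' : ℝ) = J2 + b - 1 := by exact_mod_cast hN'.symm
  have hNN' : N ≤ N' := by
    have : (N : ℝ) ≤ N' := by rw [hNr, hN'r]; linarith
    exact_mod_cast this
  have hNY : Real.exp (Y / 2) ≤ N := by rw [hNr]; linarith
  have hNY2 : Real.exp Y / 2 ≤ N := by rw [hNr]; linarith
  have hN'Y : (N' : ℝ) ≤ Real.exp (Y + R) * (2 + β) := by
    rw [hN'r]
    have h3 : 1 ≤ Real.exp (Y + R) := Real.one_le_exp (by linarith)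
    nlinarith
  have hN2 : 2 ≤ N := by
    have : (2 : ℝ) ≤ N := by linarith
    exact_mod_cast this
  -- the middle part
  have hJ1n : 0 < J1 := by exact_mod_cast hJpos
  have hNb : (0 : ℤ) ≤ (N : ℤ) - b := by
    have h3 : (N : ℤ) = (J1 : ℤ) + b - 1 := hN.symm
    omega
  have hmid := cells ha b τ η N hNb N' hNN'
  have el1 : Real.log ((N : ℝ) + 1 - b) = Real.log J1 := by
    rw [hNr]
    ring_nf
  have el2 : Real.log ((N' : ℝ) + 1 - b) = Real.log J2 := by
    rw [hN'r]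
    ring_nf
  rw [el1, el2] at hmid
  have hbound : ‖∑ m ∈ Ioc N N', a m * er (τ - η) (Real.log m) * kap b η m‖ ≤
      T * (|C1| * 2 ^ K / Y ^ K * (4 * β + 4)) := by
    refine blocks (fun m => a m * er (τ - η) (Real.log m)) b η (|C1| * 2 ^ K / Y ^ K) N N'
      (by omega) ?_ ?_ T N N' le_rfl hNN' ?_ le_rfl
    · intro m hm
      have h3 : (N : ℝ) ≤ m := by exact_mod_cast hm.le
      linarith
    · intro n n' hn hnn' hn2 hnm
      have hnr : (N : ℝ) ≤ n := by exact_mod_cast hn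
      have hnm' : (n : ℝ) ≤ N' := by exact_mod_cast (hnn'.trans hnm)
      have hn0 : (0 : ℝ) < n := by linarith [Real.exp_pos (Y / 2)]
      have hlog1 : Y / 2 ≤ Real.log n := by
        rw [Real.le_log_iff_exp_le hn0]
        linarith
      have hlog2 : Real.log n ≤ Y * (R + β + 2) := by
        have h3 : (2 : ℝ) + β ≤ Real.exp (1 + β) := by
          have := Real.add_one_le_exp (1 + β)
          linarith
        have h4 : (n : ℝ) ≤ Real.exp (Y + R + (1 + β)) := by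
          rw [Real.exp_add]
          refine hnm'.trans (hN'Y.trans ?_)
          exact mul_le_mul_of_nonneg_left h3 (Real.exp_pos _).le
        have h5 : Real.log n ≤ Y + R + (1 + β) := by
          rw [Real.log_le_iff_le_exp hn0]
          exact h4
        nlinarith
      have hlow : Real.log n ^ K1 ≤ |τ - η| := by
        calc Real.log n ^ K1 ≤ (Y * (R + β + 2)) ^ K1 :=
              pow_le_pow_left₀ (by linarith) hlog2 _
          _ = Y ^ K1 * (R + β + 2) ^ K1 := mul_pow _ _ _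
          _ ≤ Y ^ K1 * Y := mul_le_mul_of_nonneg_left hYK (by positivity)
          _ = Y ^ (K1 + 1) := (pow_succ _ _).symm
          _ ≤ |τ - η| := hτη
      have hhigh : |τ - η| ≤ (n : ℝ) ^ (2 * A + 2) := by
        have h3 : Real.exp (Y / 2) ≤ n := hNY.trans hnr
        calc |τ - η| ≤ |τ| + |η| := abs_sub _ _
          _ ≤ 2 * Real.exp (A * Y) := by linarith
          _ ≤ Real.exp Y * Real.exp (A * Y) :=
              mul_le_mul_of_nonneg_right (by linarith) (Real.exp_pos _).le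
          _ = Real.exp (Y / 2) ^ (2 * A + 2) := by
              rw [← Real.exp_add, ← Real.exp_nat_mul]
              congr 1
              push_cast
              ring
          _ ≤ (n : ℝ) ^ (2 * A + 2) := pow_le_pow_left₀ (Real.exp_pos _).le h3 _
      have h3 := htw n n' (τ - η) (by omega) hnn' hn2 hlow hhigh
      refine h3.trans ?_
      have h4 : (Y / 2) ^ K ≤ Real.log n ^ K := pow_le_pow_left₀ (by positivity) hlog1 _
      calc C1 * n / Real.log n ^ K ≤ |C1| * n / Real.log n ^ K := by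
            have : 0 ≤ Real.log n ^ K := pow_nonneg (by linarith) _
            exact div_le_div_of_nonneg_right (mul_le_mul_of_nonneg_right (le_abs_self _) hn0.le)
              this
        _ ≤ |C1| * n / (Y / 2) ^ K := by
            gcongr
        _ = |C1| * 2 ^ K / Y ^ K * n := by
            rw [div_pow]
            field_simp
    · have h3 : (N' : ℝ) ≤ 2 ^ T * N := by
        have h4 : Real.exp (Y + R) * (2 + β) ≤ 2 ^ T * (Real.exp Y / 2) := by
          rw [Real.exp_add]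
          have h5 := mul_le_mul_of_nonneg_left hT (Real.exp_pos Y).le
          linarith
        refine hN'Y.trans (h4.trans ?_)
        exact mul_le_mul_of_nonneg_left hNY2 (by positivity)
      exact_mod_cast h3
  -- the edges
  have hed1 : |Real.log J1 - y1| ≤ Real.exp (-Y) := by
    have h3 : y1 ≤ Real.log J1 := by
      rw [Real.le_log_iff_exp_le hJpos]
      exact hJ1a
    rw [abs_of_nonneg (by linarith)]
    have h4 : Real.log J1 - y1 = Real.log (J1 / Real.exp y1) := by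
      rw [Real.log_div hJpos.ne' (Real.exp_pos _).ne', Real.log_exp]
    rw [h4]
    refine (Real.log_le_sub_one_of_pos (div_pos hJpos (Real.exp_pos _))).trans ?_
    have h5 : (J1 : ℝ) / Real.exp y1 - 1 = (J1 - Real.exp y1) / Real.exp y1 := by
      rw [sub_div, div_self (Real.exp_pos _).ne']
    rw [h5, div_le_iff₀ (Real.exp_pos _), ← Real.exp_add]
    have h6 : 1 ≤ Real.exp (-Y + y1) := Real.one_le_exp (by linarith)
    linarith
  have hed2 : |y2 - Real.log J2| ≤ 2 * Real.exp (-Y) := by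
    rw [abs_le]
    constructor
    · -- `log J2 - y2 ≤ 2 exp (-Y)`
      rcases le_total ⌊Real.exp y2⌋₊ J1 with h | h
      · rw [hJ2, max_eq_left h]
        rw [abs_le] at hed1
        have := Real.exp_pos (-Y)
        linarith [hed1.2]
      · rw [hJ2, max_eq_right h]
        have h3 : Real.log (⌊Real.exp y2⌋₊ : ℝ) ≤ y2 := by
          have h4 : (0 : ℝ) < (⌊Real.exp y2⌋₊ : ℝ) := by
            have : (J1 : ℝ) ≤ (⌊Real.exp y2⌋₊ : ℝ) := by exact_mod_cast h
            linarith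
          rw [Real.log_le_iff_le_exp h4]
          exact Nat.floor_le (Real.exp_pos _).le
        have := Real.exp_pos (-Y)
        linarith
    · have h4 : y2 - Real.log J2 = Real.log (Real.exp y2 / J2) := by
        rw [Real.log_div (Real.exp_pos _).ne' hJ2pos.ne', Real.log_exp]
      rw [h4]
      refine (Real.log_le_sub_one_of_pos (div_pos (Real.exp_pos _) hJ2pos)).trans ?_
      have h5 : Real.exp y2 / (J2 : ℝ) - 1 = (Real.exp y2 - J2) / J2 := by
        rw [sub_div, div_self hJ2pos.ne']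
      rw [h5, div_le_iff₀ hJ2pos]
      have h6 : Real.exp (-Y) * Real.exp Y = 1 := by
        rw [← Real.exp_add, neg_add_cancel, Real.exp_zero]
      have h7 : Real.exp (-Y) * Real.exp Y ≤ Real.exp (-Y) * J2 :=
        mul_le_mul_of_nonneg_left (by linarith) (Real.exp_pos _).le
      linarith
  -- the sum
  have hsplit : ∫ y in y1..y2, F a b τ η y = (∫ y in y1..Real.log J1, F a b τ η y) +
      (∫ y in Real.log J1..Real.log J2, F a b τ η y) + ∫ y in Real.log J2..y2, F a b τ η y := by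
    rw [intervalIntegral.integral_add_adjacent_intervals (F_int ha _ _ _ _ _)
      (F_int ha _ _ _ _ _), intervalIntegral.integral_add_adjacent_intervals
      (F_int ha _ _ _ _ _) (F_int ha _ _ _ _ _)]
  rw [hsplit, hmid]
  refine (norm_add_le _ _).trans ?_
  have h3 := norm_add_le (∫ y in y1..Real.log J1, F a b τ η y)
    (∑ m ∈ Ioc N N', a m * er (τ - η) (Real.log m) * kap b η m)
  have h4 := (F_triv ha b τ η y1 (Real.log J1)).trans hed1
  have h5 := (F_triv ha b τ η (Real.log J2) y2).trans hed2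
  linarith

theorem ft : S_FT := by
  intro a e hW b A K R hR
  have ha := hW.le_one
  obtain ⟨K1, C1, htw⟩ := hW.tw (2 * A + 2) K
  obtain ⟨T, hT⟩ := pow_unbounded_of_one_lt (2 * Real.exp R * (2 + |(b : ℝ)|))
    (one_lt_two : (1 : ℝ) < 2)
  obtain ⟨Y0, hY0⟩ : ∃ Y0 : ℝ, Y0 = max (4 * |(b : ℝ)| + 4) ((R + |(b : ℝ)| + 2) ^ K1) :=
    ⟨_, rfl⟩
  have hY0' : 0 ≤ Y0 := by
    rw [hY0]
    exact le_max_of_le_left (by positivity)
  refine ⟨K1 + 1, 3 * K.factorial + T * (|C1| * 2 ^ K * (4 * |(b : ℝ)| + 4)) + R * Y0 ^ K, ?_⟩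
  intro Y y1 y2 τ η hY h1 h12 h2 hτ hη hτη
  have hYp : 0 < Y ^ K := by positivity
  change ‖∫ y in y1..y2, F a b τ η y‖ ≤ _
  rcases le_or_gt Y0 Y with h | h
  · have h3 := large ha b A K K1 R C1 hR T hT.le htw Y y1 y2 τ η
      ((le_max_left _ _).trans (hY0 ▸ h)) ((le_max_right _ _).trans (hY0 ▸ h)) h1 h12 h2 hτ hη hτη
    refine h3.trans ?_
    have h4 := exp_le_fact K hY
    rw [add_div, add_div]
    have h5 : (3 * K.factorial : ℝ) / Y ^ K = 3 * ((K.factorial : ℝ) / Y ^ K) := by ring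
    have h6 : (T * (|C1| * 2 ^ K * (4 * |(b : ℝ)| + 4)) : ℝ) / Y ^ K =
        T * (|C1| * 2 ^ K / Y ^ K * (4 * |(b : ℝ)| + 4)) := by ring
    have h7 : 0 ≤ R * Y0 ^ K / Y ^ K := by positivity
    rw [h5, h6]
    linarith
  · have h3 := F_triv ha b τ η y1 y2
    rw [abs_of_nonneg (by linarith)] at h3
    have h4 : y2 - y1 ≤ R := by linarith
    refine (h3.trans h4).trans ?_
    rw [le_div_iff₀ hYp]
    have h5 : Y ^ K ≤ Y0 ^ K := pow_le_pow_left₀ (by linarith) h.le _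
    have h6 : R * Y ^ K ≤ R * Y0 ^ K := mul_le_mul_of_nonneg_left h5 hR
    have h7 : 0 ≤ (3 * K.factorial : ℝ) := by positivity
    have h8 : 0 ≤ (T * (|C1| * 2 ^ K * (4 * |(b : ℝ)| + 4)) : ℝ) := by positivity
    linarith

end Pool.Agent.N216.T.FT
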